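import Pool.Agent.H37.CNY.Stmts
import Pool.Agent.H50.CND.SYG

/-!
# Row UPC of the board `cny`
-/

set_option autoImplicit false

namespace Pool.CND

open scoped Pointwise

/-- an element of order `p` with the last value -/
theorem upc_top {G : Type} [Group G] [Finite G] {b : G → ℤ} {W : Subgroup G} {l : ℤ} {p n : ℕ}
    (hp : p.Prime) (hW : Nat.card W = p ^ n) (hUM : UM b W) (hl : IsLst b W l) :
    ∃ z ∈ W, z ≠ 1 ∧ z ^ p = 1 ∧ b z = l := by
  obtain ⟨z, hz, hz1, hbz⟩ := hl.mem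
  have hpow : ∀ j : ℕ, z ^ j ≠ 1 → b (z ^ j) = l := by
    intro j
    induction j with
    | zero => intro h; exact absurd (pow_zero z) h
    | succ j ih =>
      intro h
      by_cases hj : z ^ j = 1
      · rw [pow_succ, hj, one_mul]; exact hbz
      · have h1 := hUM.mul (z ^ j) (W.pow_mem hz j) z hz hj hz1 (by rw [← pow_succ]; exact h)
        rw [ih hj, hbz, min_self, ← pow_succ] at h1
        exact le_antisymm (hl.le _ (W.pow_mem hz _) h) h1
  have ho : orderOf z ∣ p ^ n := by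
    rw [← hW]
    exact W.orderOf_dvd_natCard hz
  obtain ⟨r, -, hr⟩ := (Nat.dvd_prime_pow hp).1 ho
  rcases r with _ | s
  · rw [pow_zero, orderOf_eq_one_iff] at hr
    exact absurd hr hz1
  have h1 : z ^ (p ^ s) ≠ 1 := by
    intro h
    have h2 := orderOf_dvd_of_pow_eq_one h
    rw [hr] at h2
    have h3 := (Nat.pow_dvd_pow_iff_le_right hp.one_lt).1 h2
    omega
  refine ⟨z ^ (p ^ s), W.pow_mem hz _, h1, ?_, hpow _ h1⟩
  rw [← pow_mul, ← pow_succ, ← hr]
  exact pow_orderOf_eq_one z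

/-- the subgroup of `W` from a subgroup of the Sylow subgroup -/
theorem upc_syl {G : Type} [Group G] [Finite G] {p n a m nS : ℕ} {S W : Subgroup G} {z : G}
    (hp : p.Prime) (hS : Nat.card S = p ^ nS) (hm : ¬ p ∣ m) (hG : Nat.card G = Nat.card S * m)
    (hW : Nat.card W = p ^ n)
    (hH : ∀ z ∈ S, z ≠ 1 → z ^ p = 1 → ∃ (H : Subgroup G) (d : ℕ), H ≤ S ∧ z ∈ H ∧ z ∉ ⁅H, H⁆ ∧
      d ≤ a ∧ Nat.card S = p ^ d * Nat.card H)
    (hz : z ∈ W) (hz1 : z ≠ 1) (hzp : z ^ p = 1) :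
    ∃ (H : Subgroup G) (d : ℕ), H ≤ W ∧ z ∈ H ∧ z ∉ ⁅H, H⁆ ∧ d ≤ a ∧
      Nat.card W = p ^ d * Nat.card H := by
  have : Fact p.Prime := ⟨hp⟩
  have hWp : IsPGroup p W := IsPGroup.of_card hW
  have hm0 : m ≠ 0 := by
    rintro rfl
    exact hm (dvd_zero p)
  have hfac : Nat.card S = p ^ (Nat.card G).factorization p := by
    rw [hG, hS, Nat.factorization_mul (pow_ne_zero _ hp.ne_zero) hm0, Finsupp.add_apply,
      Nat.factorization_pow, Finsupp.smul_apply, hp.factorization_self,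
      Nat.factorization_eq_zero_of_not_dvd hm]
    simp
  obtain ⟨T, hT⟩ := hWp.exists_le_sylow
  obtain ⟨g, hg⟩ := MulAction.exists_smul_eq G (Sylow.ofCard S hfac) T
  set S1 : Subgroup G := S.map (MulAut.conj g).toMonoidHom with hS1
  have hWS : W ≤ S1 := by
    intro x hx
    have h1 : x ∈ (T : Subgroup G) := hT hx
    rw [← hg] at h1
    have h2 : x ∈ MulAut.conj g • (S : Subgroup G) := h1
    obtain ⟨y, hy, hxy⟩ := (Subgroup.mem_smul_pointwise_iff_exists _ _ _).1 h2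
    exact ⟨y, hy, hxy⟩
  obtain ⟨y, hy, hyz⟩ := hWS hz
  have hyz' : (MulAut.conj g).toMonoidHom y = z := hyz
  have hinj : Function.Injective (MulAut.conj g).toMonoidHom := (MulAut.conj g).injective
  have hy1 : y ≠ 1 := by
    rintro rfl
    exact hz1 (by rw [← hyz', map_one])
  have hyp : y ^ p = 1 := by
    apply hinj
    rw [map_pow, hyz', hzp, map_one]
  obtain ⟨H, d, hHS, hyH, hyc, hda, hcard⟩ := hH y hy hy1 hyp
  set H1 : Subgroup G := H.map (MulAut.conj g).toMonoidHom with hH1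
  have hH1S : H1 ≤ S1 := Subgroup.map_mono hHS
  have hcH1 : Nat.card H1 = Nat.card H :=
    (Nat.card_congr (H.equivMapOfInjective _ hinj).toEquiv).symm
  have hcS1 : Nat.card S1 = Nat.card S :=
    (Nat.card_congr (S.equivMapOfInjective _ hinj).toEquiv).symm
  have hzH1 : z ∈ H1 := ⟨y, hyH, hyz⟩
  have hzc : z ∉ ⁅H1, H1⁆ := by
    intro h
    rw [hH1, ← Subgroup.map_commutator] at h
    obtain ⟨x, hx, hxz⟩ := h
    have hxy : x = y := hinj (hxz.trans hyz.symm)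
    rw [hxy] at hx
    exact hyc hx
  have hidx : (W ⊓ H1).relIndex W * Nat.card (W ⊓ H1 : Subgroup G) = Nat.card W := by
    rw [mul_comm]
    exact syg_card inf_le_left
  have hdvd : (W ⊓ H1).relIndex W ∣ p ^ n := by
    rw [← hW, ← hidx]
    exact dvd_mul_right _ _
  obtain ⟨d', -, hd'⟩ := (Nat.dvd_prime_pow hp).1 hdvd
  have hT2 : H1.relIndex S1 = p ^ d := by
    have h1 : Nat.card H1 * H1.relIndex S1 = Nat.card S1 := syg_card hH1S
    rw [hcS1, hcard, hcH1, mul_comm (p ^ d)] at h1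
    exact Nat.eq_of_mul_eq_mul_left Nat.card_pos h1
  have hle : (W ⊓ H1).relIndex W ≤ p ^ d := by
    rw [Subgroup.inf_relIndex_left, ← hT2]
    exact Subgroup.relIndex_le_of_le_right hWS (by rw [hT2]; exact pow_ne_zero _ hp.ne_zero)
  refine ⟨W ⊓ H1, d', inf_le_left, ⟨hz, hzH1⟩, ?_, ?_, ?_⟩
  · intro h
    exact hzc (Subgroup.commutator_mono inf_le_right inf_le_right h)
  · rw [hd'] at hle
    exact ((Nat.pow_le_pow_iff_right hp.one_lt).1 hle).trans hda
  · rw [← hd']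
    exact hidx.symm

theorem upc_thm (hWLD : S_WLD) (hUMW : S_UMW) (hINC : S_INC) (hCON : S_CON) : S_UPC := by
  intro p k G _ _ _ S a m hp hchar hSp hm hG hH c hc
  have : Fact p.Prime := ⟨hp⟩
  let iF : Fintype G := Fintype.ofFinite G
  obtain ⟨L, fL, aL, ρ, t, hcov, P, -, hP⟩ := hc
  obtain ⟨W, I, hW, hI, -, ⟨n, hn⟩, m1, hm1, hcI⟩ := hWLD p k L G P ρ hp hchar hcov.inj
  rcases hCON k L G P ρ W I c hcov.inj hW hI hP with h0 | ⟨l, hl, hc⟩
  · subst h0
    exact ⟨0, by simp⟩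
  obtain ⟨nS, hnS⟩ := hSp
  obtain ⟨z, hzW, hz1, hzp, hbz⟩ := upc_top hp hn (hUMW k L G P ρ W hcov.inj hW) hl
  obtain ⟨H, d', hHW, hzH, hzc, hda, hcW⟩ := upc_syl hp hnS hm hG hn hH hzW hz1 hzp
  obtain ⟨z1, hz1⟩ := hINC p k L G P ρ W W H d' l z hp hchar hcov.inj hW le_rfl hHW ⟨n, hn⟩ hzH hzc
    hbz hcW hl
  have hWpos : 0 < Nat.card W := Nat.card_pos
  have hU : (m1 : ℚ) * c = U (fun g => P.b (ρ g)) W l := by
    have hW0 : (Nat.card W : ℚ) ≠ 0 := by exact_mod_cast hWpos.ne'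
    apply mul_left_cancel₀ hW0
    rw [← hc, hcI]
    push_cast
    ring
  -- `m1` divides `m`
  have hdvd : m1 ∣ m := by
    have h1 : m1 ∣ Nat.card G :=
      (Dvd.intro _ hcI.symm).trans I.card_subgroup_dvd_card
    rw [hG, hnS] at h1
    exact (Nat.Coprime.pow_right _ ((Nat.Prime.coprime_iff_not_dvd hp).2 hm1).symm).dvd_of_dvd_mul_left
      h1
  obtain ⟨m2, hm2⟩ := hdvd
  refine ⟨m2 * (p ^ (a - d') * z1), ?_⟩
  have key : ((p ^ a * m : ℕ) : ℚ) * c = (m2 : ℚ) * ((p : ℚ) ^ a *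
      U (fun g => P.b (ρ g)) W l) := by
    rw [← hU, hm2]
    push_cast
    ring
  rw [key]
  push_cast
  rw [← hz1]
  nth_rewrite 1 [show a = (a - d') + d' by omega]
  rw [pow_add]
  ring

end Pool.CND
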